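import Mathlib

set_option autoImplicit false

open Topology Filter Metric Set

namespace Pool.Agent.H733.BT207

/-! ### Products of numbers near one -/

theorem near_mul {t : ℝ} {z w : ℂ} {A B : ℝ} (hz : ‖z - 1‖ ≤ A - 1) (hw : ‖w - 1‖ ≤ B - 1) :
    ‖z * w - 1‖ ≤ A * B - 1 := by
  have h1 : z * w - 1 = (z - 1) * (w - 1) + (z - 1) + (w - 1) := by ring
  have ha : 0 ≤ A - 1 := (norm_nonneg _).trans hz
  rw [h1]
  calc ‖(z - 1) * (w - 1) + (z - 1) + (w - 1)‖ ≤ ‖z - 1‖ * ‖w - 1‖ + ‖z - 1‖ + ‖w - 1‖ := by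
        refine (norm_add_le _ _).trans (add_le_add_left ?_ _)
        refine (norm_add_le _ _).trans (add_le_add_left ?_ _)
        rw [norm_mul]
    _ ≤ (A - 1) * (B - 1) + (A - 1) + (B - 1) := by gcongr
    _ = A * B - 1 := by ring

theorem near_pow {t : ℝ} {z : ℂ} (hz : ‖z - 1‖ ≤ (1 + t) - 1) (n : ℕ) :
    ‖z ^ n - 1‖ ≤ (1 + t) ^ n - 1 := by
  induction n with
  | zero => simp
  | succ n ih =>
    rw [pow_succ, pow_succ]
    exact near_mul (t := t) ih hz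

theorem pow_bd {t : ℝ} (ht : 0 ≤ t) (ht1 : t ≤ 1) (n : ℕ) : (1 + t) ^ n - 1 ≤ 2 ^ n * t := by
  have h1 : ∀ n : ℕ, (1 + t) ^ n - 1 ≤ (2 ^ n - 1) * t := by
    intro n
    induction n with
    | zero => simp
    | succ n ih =>
      have h2 : (1 + t) ^ n ≤ 2 ^ n := pow_le_pow_left₀ (by linarith) (by linarith) n
      have h3 : t * (1 + t) ^ n ≤ t * 2 ^ n := mul_le_mul_of_nonneg_left h2 ht
      have e1 : (1 + t) ^ (n + 1) - 1 = ((1 + t) ^ n - 1) + t * (1 + t) ^ n := by ring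
      have e2 : ((2 : ℝ) ^ (n + 1) - 1) * t = (2 ^ n - 1) * t + t * 2 ^ n := by ring
      rw [e1, e2]
      linarith
  have h2 := h1 n
  nlinarith

/-- a fixed point of a contraction of a closed disc -/
theorem fixpt {F F' : ℂ → ℂ} {ζ₀ : ℂ} {ρ : ℝ} (hρ : 0 ≤ ρ)
    (hd : ∀ ζ ∈ closedBall ζ₀ ρ, HasDerivAt F (F' ζ) ζ) (hF : ∀ ζ ∈ closedBall ζ₀ ρ, ‖F' ζ‖ ≤ 1 / 2)
    (h0 : ‖F ζ₀ - ζ₀‖ ≤ ρ / 2) : ∃ q ∈ closedBall ζ₀ ρ, F q = q := by
  have hlip : ∀ ζ ∈ closedBall ζ₀ ρ, ∀ ζ' ∈ closedBall ζ₀ ρ, ‖F ζ - F ζ'‖ ≤ 1 / 2 * ‖ζ - ζ'‖ := by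
    intro ζ hζ ζ' hζ'
    exact (convex_closedBall ζ₀ ρ).norm_image_sub_le_of_norm_hasDerivWithin_le
      (fun x hx => (hd x hx).hasDerivWithinAt) hF hζ' hζ
  have hmaps : MapsTo F (closedBall ζ₀ ρ) (closedBall ζ₀ ρ) := by
    intro ζ hζ
    have h1 := hlip ζ hζ ζ₀ (mem_closedBall_self hρ)
    rw [mem_closedBall, dist_eq_norm] at hζ ⊢
    calc ‖F ζ - ζ₀‖ = ‖(F ζ - F ζ₀) + (F ζ₀ - ζ₀)‖ := by rw [sub_add_sub_cancel]
      _ ≤ ‖F ζ - F ζ₀‖ + ‖F ζ₀ - ζ₀‖ := norm_add_le _ _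
      _ ≤ 1 / 2 * ρ + ρ / 2 := add_le_add (h1.trans (mul_le_mul_of_nonneg_left hζ (by norm_num))) h0
      _ = ρ := by ring
  have hcon : ContractingWith (1 / 2 : NNReal) (hmaps.restrict F (closedBall ζ₀ ρ) (closedBall ζ₀ ρ)) := by
    refine ⟨by norm_num, LipschitzWith.of_dist_le_mul fun x y => ?_⟩
    have h1 := hlip x x.2 y y.2
    rw [Subtype.dist_eq, dist_eq_norm, Subtype.dist_eq, dist_eq_norm]
    push_cast
    exact h1
  obtain ⟨q, hq, hfix, -⟩ := ContractingWith.exists_fixedPoint' (isClosed_closedBall.isComplete) hmaps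
    hcon (mem_closedBall_self hρ) (edist_ne_top _ _)
  exact ⟨q, hq, hfix⟩

/-- roots of a moving equation near a critical point -/
theorem loc {S : Type} [NormedAddCommGroup S] (n : ℕ) (hn : 1 ≤ n) (g G : S → ℂ → ℂ) (a : S → ℂ)
    (R M : ℝ) (hR : 0 < R) (hM : 1 ≤ M)
    (hder : ∀ s, ‖s‖ < R → ∀ ζ, ‖ζ - a 0‖ < R → HasDerivAt (g s) ((ζ - a s) ^ n * G s ζ) ζ)
    (hG : ∀ s, ‖s‖ < R → ∀ ζ, ‖ζ - a 0‖ < R → ‖G s ζ - G 0 (a 0)‖ ≤ M * (‖s‖ + ‖ζ - a 0‖))
    (ha : ∀ s, ‖s‖ < R → ‖a s - a 0‖ ≤ M * ‖s‖)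
    (hg : ∀ s, ‖s‖ < R → ∀ s', ‖s'‖ < R → ∀ ζ, ‖ζ - a 0‖ < R →
      ‖g s ζ - g s' ζ‖ ≤ M * ‖s - s'‖)
    (hG0 : G 0 (a 0) ≠ 0) :
    ∃ η > (0 : ℝ), ∃ B ≥ (1 : ℝ), ∀ (z : ℂ) (w : S → ℂ) (y r K : ℝ), 0 < y → y ≤ η →
      y ^ (n + 1) = ‖w 0 - g 0 (a 0)‖ → 0 < r → 1 ≤ K → B * K * r ≤ y ^ (n + 1) →
      (∀ s ∈ ball (0 : S) r, ∀ s' ∈ ball (0 : S) r, ‖w s - w s'‖ ≤ K * ‖s - s'‖) →
      ∃ q : S → ℂ, ‖q 0 - a 0‖ ≤ B * y ∧ y ≤ B * ‖q 0 - z‖ ∧
        (∀ s ∈ ball (0 : S) r, ∀ s' ∈ ball (0 : S) r,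
          y ^ n * ‖q s - q s'‖ ≤ B * K * ‖s - s'‖) ∧
        ∀ s ∈ ball (0 : S) r, ‖s‖ < R ∧ ‖q s - a 0‖ < R ∧ g s (q s) = w s ∧
          (q s - a s) ^ n * G s (q s) ≠ 0 := by
  set G0 := G 0 (a 0) with hG0def
  have hg0 : 0 < ‖G0‖ := norm_pos_iff.2 hG0
  have hn1 : ((n : ℂ) + 1) ≠ 0 := by exact_mod_cast Nat.succ_ne_zero n
  have hh0 : G0 / ((n : ℂ) + 1) ≠ 0 := div_ne_zero hG0 hn1
  -- a root of `1 / h0`
  obtain ⟨b1, hb1⟩ := IsAlgClosed.exists_pow_nat_eq ((G0 / ((n : ℂ) + 1))⁻¹) (Nat.succ_pos n)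
  have hb1ne : b1 ≠ 0 := by
    rintro rfl
    rw [zero_pow (Nat.succ_ne_zero n)] at hb1
    exact inv_ne_zero hh0 hb1.symm
  set β : ℝ := ‖b1‖ with hβdef
  have hβ : 0 < β := norm_pos_iff.2 hb1ne
  -- a root of unity
  obtain ⟨ω, hω, hω1⟩ : ∃ ω : ℂ, ω ^ (n + 1) = 1 ∧ ω ≠ 1 := by
    have h1 := Complex.isPrimitiveRoot_exp (n + 1) (Nat.succ_ne_zero n)
    exact ⟨_, h1.pow_eq_one, h1.ne_one (by omega)⟩
  have hωn : ‖ω‖ = 1 := by
    have h1 : ‖ω‖ ^ (n + 1) = 1 := by rw [← norm_pow, hω, norm_one]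
    exact (pow_eq_one_iff_of_nonneg (norm_nonneg _) (Nat.succ_ne_zero n)).1 h1
  set δ : ℝ := ‖ω - 1‖ with hδdef
  have hδ : 0 < δ := norm_pos_iff.2 (sub_ne_zero.2 hω1)
  -- the constants
  set c : ℝ := min (β / 2 ^ (n + 3)) (δ * β / 4) with hcdef
  have hc : 0 < c := lt_min (by positivity) (by positivity)
  have hc1 : c ≤ β / 2 ^ (n + 3) := min_le_left _ _
  have hc2 : c ≤ δ * β / 4 := min_le_right _ _
  set η : ℝ := min (min 1 (R / (2 * (β + c + 1)))) (min (‖G0‖ / (2 ^ (n + 2) * (M * (2 * c + β + 1))))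
    (c * ‖G0‖ / (4 * M * β ^ 2))) with hηdef
  have hη : 0 < η := by
    refine lt_min (lt_min one_pos ?_) (lt_min ?_ ?_)
    · positivity
    · positivity
    · positivity
  have hη1 : η ≤ 1 := (min_le_left _ _).trans (min_le_left _ _)
  have hη2 : η ≤ R / (2 * (β + c + 1)) := (min_le_left _ _).trans (min_le_right _ _)
  have hη3 : η ≤ ‖G0‖ / (2 ^ (n + 2) * (M * (2 * c + β + 1))) :=
    (min_le_right _ _).trans (min_le_left _ _)
  have hη4 : η ≤ c * ‖G0‖ / (4 * M * β ^ 2) := (min_le_right _ _).trans (min_le_right _ _)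
  set B : ℝ := 1 + M / c + 8 * M / (c * β ^ n * ‖G0‖) + 4 * M / (β ^ n * ‖G0‖) + (β + c) +
    4 / (δ * β) with hBdef
  have hB1 : 1 ≤ B := by
    have : 0 ≤ M / c + 8 * M / (c * β ^ n * ‖G0‖) + 4 * M / (β ^ n * ‖G0‖) + (β + c) +
      4 / (δ * β) := by positivity
    linarith
  have p1 : 0 ≤ M / c := by positivity
  have p2 : 0 ≤ 8 * M / (c * β ^ n * ‖G0‖) := by positivity
  have p3 : 0 ≤ 4 * M / (β ^ n * ‖G0‖) := by positivity
  have p4 : 0 ≤ β + c := by positivity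
  have p5 : 0 ≤ 4 / (δ * β) := by positivity
  have hB2 : M / c ≤ B := by linarith
  have hB3 : 8 * M / (c * β ^ n * ‖G0‖) ≤ B := by linarith
  have hB4 : 4 * M / (β ^ n * ‖G0‖) ≤ B := by linarith
  have hB5 : β + c ≤ B := by linarith
  have hB6 : 4 / (δ * β) ≤ B := by linarith
  refine ⟨η, hη, B, hB1, ?_⟩
  intro z w y r K hy hyη hyT hr hK hBr hw
  have hy1 : y ≤ 1 := hyη.trans hη1
  have hyn : y ^ n ≤ 1 := pow_le_one₀ hy.le hy1
  have hynp : 0 < y ^ n := pow_pos hy n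
  have hB0 : 0 < B := lt_of_lt_of_le one_pos hB1
  have hrK : B * r ≤ y ^ (n + 1) := by
    refine le_trans ?_ hBr
    have : B * r * 1 ≤ B * r * K := mul_le_mul_of_nonneg_left hK (by positivity)
    linarith
  have hBr' : B * r ≤ y := by
    refine hrK.trans ?_
    rw [pow_succ]
    nlinarith
  have hry : r ≤ y := by nlinarith
  have hMr : M * r ≤ c * y := by
    have h1 : M / c * r ≤ B * r := mul_le_mul_of_nonneg_right hB2 hr.le
    have h2 : M / c * r ≤ y := h1.trans hBr'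
    rw [div_mul_eq_mul_div, div_le_iff₀ hc] at h2
    linarith
  have hRy : (β + c + 1) * y < R := by
    have h1 : y ≤ R / (2 * (β + c + 1)) := hyη.trans hη2
    rw [le_div_iff₀ (by positivity)] at h1
    nlinarith
  have hrR : r < R := by nlinarith
  -- the two roots
  obtain ⟨t, ht⟩ := IsAlgClosed.exists_pow_nat_eq (w 0 - g 0 (a 0)) (Nat.succ_pos n)
  have htn : ‖t‖ = y := by
    have h1 : ‖t‖ ^ (n + 1) = y ^ (n + 1) := by rw [← norm_pow, ht, hyT]
    exact (pow_left_inj₀ (norm_nonneg _) hy.le (Nat.succ_ne_zero n)).1 h1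
  obtain ⟨b, hbn, hbT, hbz⟩ : ∃ b : ℂ, ‖b‖ = β * y ∧
      b ^ (n + 1) * (G0 / ((n : ℂ) + 1)) = w 0 - g 0 (a 0) ∧ δ * β * y / 2 ≤ ‖a 0 + b - z‖ := by
    have e1 : (b1 * t) ^ (n + 1) * (G0 / ((n : ℂ) + 1)) = w 0 - g 0 (a 0) := by
      rw [mul_pow, hb1, ht, mul_right_comm, inv_mul_cancel₀ hh0, one_mul]
    by_cases h1 : δ * β * y / 2 ≤ ‖a 0 + b1 * t - z‖
    · exact ⟨b1 * t, by rw [norm_mul, htn], e1, h1⟩
    · refine ⟨ω * (b1 * t), by rw [norm_mul, hωn, one_mul, norm_mul, htn], ?_, ?_⟩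
      · rw [mul_pow, hω, one_mul]
        exact e1
      · push Not at h1
        have h2 : (ω - 1) * (b1 * t) = (a 0 + ω * (b1 * t) - z) - (a 0 + b1 * t - z) := by ring
        have h3 : ‖(ω - 1) * (b1 * t)‖ = δ * (β * y) := by rw [norm_mul, norm_mul, htn]
        have h4 : ‖(ω - 1) * (b1 * t)‖ ≤ ‖a 0 + ω * (b1 * t) - z‖ + ‖a 0 + b1 * t - z‖ := by
          rw [h2]
          exact norm_sub_le _ _
        rw [h3] at h4
        nlinarith
  have hbne : b ≠ 0 := by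
    rw [← norm_pos_iff, hbn]
    positivity
  set ζ₀ : ℂ := a 0 + b with hζ₀
  set D : ℂ := b ^ n * G0 with hDdef
  have hDne : D ≠ 0 := mul_ne_zero (pow_ne_zero _ hbne) hG0
  have hDn : ‖D‖ = β ^ n * ‖G0‖ * y ^ n := by
    rw [hDdef, norm_mul, norm_pow, hbn, mul_pow]
    ring
  have hDp : 0 < ‖D‖ := norm_pos_iff.2 hDne
  -- points of the disc
  have hball : ∀ ζ ∈ closedBall ζ₀ (c * y), ‖ζ - a 0‖ ≤ (β + c) * y := by
    intro ζ hζ
    rw [mem_closedBall, dist_eq_norm] at hζ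
    calc ‖ζ - a 0‖ = ‖(ζ - ζ₀) + b‖ := by rw [hζ₀]; congr 1; ring
      _ ≤ ‖ζ - ζ₀‖ + ‖b‖ := norm_add_le _ _
      _ ≤ c * y + β * y := by rw [hbn]; linarith
      _ = (β + c) * y := by ring
  have hballR : ∀ ζ ∈ closedBall ζ₀ (c * y), ‖ζ - a 0‖ < R := by
    intro ζ hζ
    have := hball ζ hζ
    nlinarith
  -- the ratio of the derivatives
  have hrat : ∀ s, ‖s‖ < r → ∀ ζ ∈ closedBall ζ₀ (c * y),
      ‖(ζ - a s) ^ n * G s ζ / D - 1‖ ≤ 1 / 2 := by
    intro s hs ζ hζ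
    have hsR : ‖s‖ < R := hs.trans hrR
    have hζR := hballR ζ hζ
    set T : ℝ := 1 / 2 ^ (n + 2) with hTdef
    have hT0 : 0 ≤ T := by positivity
    have hT1 : T ≤ 1 := by
      rw [hTdef]
      refine div_le_one_of_le₀ (one_le_pow₀ (by norm_num)) (by positivity)
    have q1 : ‖(ζ - a s) / b - 1‖ ≤ (1 + T) - 1 := by
      have e1 : (ζ - a s) / b - 1 = ((ζ - ζ₀) - (a s - a 0)) / b := by
        rw [hζ₀]
        field_simp
        ring
      rw [e1, norm_div, hbn, add_sub_cancel_left, div_le_iff₀ (by positivity)]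
      rw [mem_closedBall, dist_eq_norm] at hζ
      have h2 := ha s hsR
      have h3 : M * ‖s‖ ≤ M * r := mul_le_mul_of_nonneg_left hs.le (by linarith)
      have h4 : 2 * c ≤ T * β := by
        have h5 : c * 2 ^ (n + 3) ≤ β := by
          rw [le_div_iff₀ (by positivity)] at hc1
          exact hc1
        rw [hTdef, div_mul_eq_mul_div, le_div_iff₀ (by positivity), one_mul]
        calc 2 * c * 2 ^ (n + 2) = c * 2 ^ (n + 3) := by ring
          _ ≤ β := h5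
      calc ‖(ζ - ζ₀) - (a s - a 0)‖ ≤ ‖ζ - ζ₀‖ + ‖a s - a 0‖ := norm_sub_le _ _
        _ ≤ c * y + c * y := by linarith
        _ = 2 * c * y := by ring
        _ ≤ T * β * y := mul_le_mul_of_nonneg_right h4 hy.le
        _ = T * (β * y) := by ring
    have q2 : ‖G s ζ / G0 - 1‖ ≤ (1 + T) - 1 := by
      rw [div_sub_one hG0, norm_div, div_le_iff₀ hg0, add_sub_cancel_left]
      have h2 := hG s hsR ζ hζR
      have h3 := hball ζ hζ
      have h4 : y ≤ ‖G0‖ / (2 ^ (n + 2) * (M * (2 * c + β + 1))) := hyη.trans hη3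
      rw [le_div_iff₀ (by positivity)] at h4
      calc ‖G s ζ - G0‖ ≤ M * (‖s‖ + ‖ζ - a 0‖) := h2
        _ ≤ M * (y + (β + c) * y) := by
            refine mul_le_mul_of_nonneg_left ?_ (by linarith)
            linarith
        _ ≤ M * (2 * c + β + 1) * y := by nlinarith [mul_pos (mul_pos (lt_of_lt_of_le one_pos hM) hc) hy]
        _ ≤ T * ‖G0‖ := by
            rw [hTdef, div_mul_eq_mul_div, one_mul, le_div_iff₀ (by positivity)]
            linarith
    have q3 := near_mul (t := T) (near_pow q1 n) q2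
    have e2 : (ζ - a s) ^ n * G s ζ / D = ((ζ - a s) / b) ^ n * (G s ζ / G0) := by
      rw [hDdef, div_pow, mul_div_mul_comm]
    rw [e2]
    refine q3.trans ?_
    rw [← pow_succ]
    refine (pow_bd hT0 hT1 (n + 1)).trans (le_of_eq ?_)
    rw [hTdef, pow_succ (2 : ℝ) (n + 1)]
    field_simp
  -- the value at the centre
  have hcen : ‖g 0 ζ₀ - w 0‖ ≤ M * (β * y) ^ (n + 1) * (β * y) := by
    have hd : ∀ ζ ∈ closedBall (a 0) (β * y),
        HasDerivAt (fun ζ => g 0 ζ - (ζ - a 0) ^ (n + 1) * (G0 / ((n : ℂ) + 1)))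
          ((ζ - a 0) ^ n * (G 0 ζ - G0)) ζ := by
      intro ζ hζ
      rw [mem_closedBall, dist_eq_norm] at hζ
      have hζR : ‖ζ - a 0‖ < R := by nlinarith
      have h1 := hder 0 (by rw [norm_zero]; exact hR) ζ hζR
      have h2 : HasDerivAt (fun ζ => (ζ - a 0) ^ (n + 1) * (G0 / ((n : ℂ) + 1)))
          ((((n + 1 : ℕ) : ℂ) * (ζ - a 0) ^ n * 1) * (G0 / ((n : ℂ) + 1))) ζ :=
        (((hasDerivAt_id ζ).sub_const (a 0)).pow (n + 1)).mul_const _
      refine (h1.sub h2).congr_deriv ?_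
      push_cast
      field_simp
    have hb : ∀ ζ ∈ closedBall (a 0) (β * y),
        ‖(ζ - a 0) ^ n * (G 0 ζ - G0)‖ ≤ M * (β * y) ^ (n + 1) := by
      intro ζ hζ
      rw [mem_closedBall, dist_eq_norm] at hζ
      have hζR : ‖ζ - a 0‖ < R := by nlinarith
      have h1 := hG 0 (by rw [norm_zero]; exact hR) ζ hζR
      rw [norm_zero, zero_add] at h1
      rw [norm_mul, norm_pow]
      calc ‖ζ - a 0‖ ^ n * ‖G 0 ζ - G0‖ ≤ (β * y) ^ n * (M * (β * y)) := by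
            refine mul_le_mul (pow_le_pow_left₀ (norm_nonneg _) hζ n) (h1.trans ?_) (norm_nonneg _)
              (by positivity)
            exact mul_le_mul_of_nonneg_left hζ (by linarith)
        _ = M * (β * y) ^ (n + 1) := by ring
    have h1 := (convex_closedBall (a 0) (β * y)).norm_image_sub_le_of_norm_hasDerivWithin_le
      (fun x hx => (hd x hx).hasDerivWithinAt) hb (mem_closedBall_self (by positivity))
      (show ζ₀ ∈ closedBall (a 0) (β * y) by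
        rw [mem_closedBall, dist_eq_norm, hζ₀, add_sub_cancel_left, hbn])
    have e1 : ζ₀ - a 0 = b := by rw [hζ₀, add_sub_cancel_left]
    rw [e1, sub_self, zero_pow (Nat.succ_ne_zero n), zero_mul, sub_zero, hbT, hbn] at h1
    have e2 : g 0 ζ₀ - (w 0 - g 0 (a 0)) - g 0 (a 0) = g 0 ζ₀ - w 0 := by ring
    rw [e2] at h1
    exact h1
  -- the contraction
  have hfix : ∀ s, ‖s‖ < r → ∃ q ∈ closedBall ζ₀ (c * y), q - (g s q - w s) / D = q := by
    intro s hs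
    have hsR : ‖s‖ < R := hs.trans hrR
    have hsb : s ∈ ball (0 : S) r := by rwa [mem_ball_zero_iff]
    refine fixpt (F := fun ζ => ζ - (g s ζ - w s) / D)
      (F' := fun ζ => 1 - (ζ - a s) ^ n * G s ζ / D) (by positivity) ?_ ?_ ?_
    · intro ζ hζ
      exact (hasDerivAt_id ζ).sub (((hder s hsR ζ (hballR ζ hζ)).sub_const _).div_const D)
    · intro ζ hζ
      rw [norm_sub_rev]
      exact hrat s hs ζ hζ
    · beta_reduce
      have hζ₀R := hballR ζ₀ (mem_closedBall_self (by positivity))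
      have e1 : ζ₀ - (g s ζ₀ - w s) / D - ζ₀ = -((g s ζ₀ - w s) / D) := by ring
      rw [e1, norm_neg, norm_div, div_le_iff₀ hDp]
      have h1 : ‖g s ζ₀ - w s‖ ≤ ‖g s ζ₀ - g 0 ζ₀‖ + ‖g 0 ζ₀ - w 0‖ + ‖w 0 - w s‖ := by
        have e2 : g s ζ₀ - w s = (g s ζ₀ - g 0 ζ₀) + (g 0 ζ₀ - w 0) + (w 0 - w s) := by ring
        rw [e2]
        exact norm_add₃_le
      have h2 := hg s hsR 0 (by rw [norm_zero]; exact hR) ζ₀ hζ₀R
      rw [sub_zero] at h2
      have h3 := hw 0 (mem_ball_self hr) s hsb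
      rw [zero_sub, norm_neg] at h3
      have h4 : M * ‖s‖ ≤ M * r := mul_le_mul_of_nonneg_left hs.le (by linarith)
      have h5 : K * ‖s‖ ≤ K * r := mul_le_mul_of_nonneg_left hs.le (by linarith)
      have h6 : M * r + K * r ≤ 2 * M * (K * r) := by
        have hKr : 0 ≤ K * r := by positivity
        have hMK : M * r ≤ M * (K * r) := by
          refine mul_le_mul_of_nonneg_left ?_ (by linarith)
          nlinarith
        nlinarith
      -- first part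
      have h7 : M * (β * y) ^ (n + 1) * (β * y) ≤ c * y / 4 * ‖D‖ := by
        have h8 : y ≤ c * ‖G0‖ / (4 * M * β ^ 2) := hyη.trans hη4
        rw [le_div_iff₀ (by positivity)] at h8
        rw [hDn]
        calc M * (β * y) ^ (n + 1) * (β * y) = (β ^ n * y ^ n * y / 4) * (y * (4 * M * β ^ 2)) := by
              rw [mul_pow]
              ring
          _ ≤ (β ^ n * y ^ n * y / 4) * (c * ‖G0‖) :=
              mul_le_mul_of_nonneg_left h8 (by positivity)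
          _ = c * y / 4 * (β ^ n * ‖G0‖ * y ^ n) := by ring
      have h9 : 2 * M * (K * r) ≤ c * y / 4 * ‖D‖ := by
        have h10 : 8 * M / (c * β ^ n * ‖G0‖) * (K * r) ≤ B * (K * r) :=
          mul_le_mul_of_nonneg_right hB3 (by positivity)
        have h11 : 8 * M / (c * β ^ n * ‖G0‖) * (K * r) ≤ y ^ (n + 1) := by
          refine h10.trans ?_
          rw [← mul_assoc]
          exact hBr
        rw [div_mul_eq_mul_div, div_le_iff₀ (by positivity)] at h11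
        rw [hDn]
        have e3 : c * y / 4 * (β ^ n * ‖G0‖ * y ^ n) = y ^ (n + 1) * (c * β ^ n * ‖G0‖) / 4 := by
          ring
        rw [e3]
        linarith
      calc ‖g s ζ₀ - w s‖ ≤ c * y / 4 * ‖D‖ + c * y / 4 * ‖D‖ := by linarith
        _ = c * y / 2 * ‖D‖ := by ring
  classical
  choose! q hq using hfix
  have hsol : ∀ s, ‖s‖ < r → g s (q s) = w s := by
    intro s hs
    have h1 := (hq s hs).2
    have h2 : (g s (q s) - w s) / D = 0 := by
      have := congrArg (fun x => q s - x) h1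
      simpa using this
    rcases div_eq_zero_iff.1 h2 with h3 | h3
    · exact sub_eq_zero.1 h3
    · exact absurd h3 hDne
  refine ⟨q, ?_, ?_, ?_, ?_⟩
  · have h1 := hball _ (hq 0 (by rw [norm_zero]; exact hr)).1
    exact h1.trans (mul_le_mul_of_nonneg_right hB5 hy.le)
  · have h1 := (hq 0 (by rw [norm_zero]; exact hr)).1
    rw [mem_closedBall, dist_eq_norm] at h1
    have h2 : ‖ζ₀ - z‖ ≤ ‖q 0 - z‖ + ‖q 0 - ζ₀‖ := by
      have e1 : ζ₀ - z = (q 0 - z) - (q 0 - ζ₀) := by ring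
      rw [e1]
      exact norm_sub_le _ _
    have h3 : δ * β / 4 * y ≤ ‖q 0 - z‖ := by
      have h4 : c * y ≤ δ * β / 4 * y := mul_le_mul_of_nonneg_right hc2 hy.le
      have h5 : δ * β * y / 2 = δ * β / 4 * y + δ * β / 4 * y := by ring
      rw [h5] at hbz
      linarith
    calc y = 4 / (δ * β) * (δ * β / 4 * y) := by
          field_simp
      _ ≤ 4 / (δ * β) * ‖q 0 - z‖ := mul_le_mul_of_nonneg_left h3 p5
      _ ≤ B * ‖q 0 - z‖ := mul_le_mul_of_nonneg_right hB6 (norm_nonneg _)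
  · intro s hs s' hs'
    have hs1 : ‖s‖ < r := by rwa [mem_ball_zero_iff] at hs
    have hs1' : ‖s'‖ < r := by rwa [mem_ball_zero_iff] at hs'
    have hsR : ‖s‖ < R := hs1.trans hrR
    have hsR' : ‖s'‖ < R := hs1'.trans hrR
    obtain ⟨m1, f1⟩ := hq s hs1
    obtain ⟨m2, f2⟩ := hq s' hs1'
    -- contraction at `s`
    have h1 : ‖(q s - (g s (q s) - w s) / D) - (q s' - (g s (q s') - w s) / D)‖ ≤
        1 / 2 * ‖q s - q s'‖ := by
      exact (convex_closedBall ζ₀ (c * y)).norm_image_sub_le_of_norm_hasDerivWithin_le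
        (f := fun ζ => ζ - (g s ζ - w s) / D) (f' := fun ζ => 1 - (ζ - a s) ^ n * G s ζ / D)
        (fun x hx => ((hasDerivAt_id x).sub
          (((hder s hsR x (hballR x hx)).sub_const _).div_const D)).hasDerivWithinAt)
        (fun x hx => by rw [norm_sub_rev]; exact hrat s hs1 x hx) m2 m1
    have h2 : ‖(q s' - (g s (q s') - w s) / D) - (q s' - (g s' (q s') - w s') / D)‖ ≤
        (M + K) * ‖s - s'‖ / ‖D‖ := by
      have e1 : (q s' - (g s (q s') - w s) / D) - (q s' - (g s' (q s') - w s') / D) =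
          ((w s - w s') - (g s (q s') - g s' (q s'))) / D := by
        field_simp
        ring
      rw [e1, norm_div]
      refine div_le_div_of_nonneg_right ?_ hDp.le
      have h3 := hg s hsR s' hsR' (q s') (hballR _ m2)
      have h4 := hw s hs s' hs'
      calc ‖(w s - w s') - (g s (q s') - g s' (q s'))‖ ≤ ‖w s - w s'‖ + ‖g s (q s') - g s' (q s')‖ :=
            norm_sub_le _ _
        _ ≤ (M + K) * ‖s - s'‖ := by linarith
    rw [f1] at h1
    rw [f2] at h2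
    have h3 : ‖q s - q s'‖ ≤ 1 / 2 * ‖q s - q s'‖ + (M + K) * ‖s - s'‖ / ‖D‖ := by
      have e1 : q s - q s' = (q s - (q s' - (g s (q s') - w s) / D)) +
          ((q s' - (g s (q s') - w s) / D) - q s') := by ring
      calc ‖q s - q s'‖ = ‖(q s - (q s' - (g s (q s') - w s) / D)) +
          ((q s' - (g s (q s') - w s) / D) - q s')‖ := by rw [← e1]
        _ ≤ _ := norm_add_le _ _
        _ ≤ _ := add_le_add h1 h2
    have h4 : ‖q s - q s'‖ ≤ 2 * ((M + K) * ‖s - s'‖ / ‖D‖) := by linarith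
    have h5 : (M + K) * ‖s - s'‖ ≤ 2 * M * K * ‖s - s'‖ := by
      refine mul_le_mul_of_nonneg_right ?_ (norm_nonneg _)
      nlinarith
    calc y ^ n * ‖q s - q s'‖ ≤ y ^ n * (2 * (2 * M * K * ‖s - s'‖ / ‖D‖)) := by
          refine mul_le_mul_of_nonneg_left (h4.trans ?_) hynp.le
          exact mul_le_mul_of_nonneg_left (div_le_div_of_nonneg_right h5 hDp.le) (by norm_num)
      _ = 4 * M / (β ^ n * ‖G0‖) * K * ‖s - s'‖ := by
          rw [hDn]
          field_simp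
          ring
      _ ≤ B * K * ‖s - s'‖ := by
          refine mul_le_mul_of_nonneg_right ?_ (norm_nonneg _)
          exact mul_le_mul_of_nonneg_right hB4 (by linarith)
  · intro s hs
    have hs1 : ‖s‖ < r := by rwa [mem_ball_zero_iff] at hs
    obtain ⟨m1, f1⟩ := hq s hs1
    refine ⟨hs1.trans hrR, hballR _ m1, hsol s hs1, fun h => ?_⟩
    have h1 := hrat s hs1 _ m1
    rw [h, zero_div, zero_sub, norm_neg, norm_one] at h1
    norm_num at h1

end Pool.Agent.H733.BT207
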