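import Pool.Agent.H207.BT.Stm
import Pool.Agent.H295.HY211.DIST
import Pool.Agent.H733.BT207.LOC

/-!
# Roots: preimages near a critical point of moving points near the critical value
-/

set_option autoImplicit false

open Topology Filter Metric Set

namespace Pool.Agent.H733.BT207

open Pool.Agent.H790R3.RB Pool.Agent.H211.HY

section
open Pool.Agent.H295.HY211

theorem cr_iot_pt {τ : Bool} {c : ℂ} (h : dn τ (c, 1) ≠ 0) (ζ : ℂ) :
    cr (iot τ ζ) (c, 1) = sg τ * dn τ (c, 1) * (ζ - lc τ (c, 1)) := by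
  revert h
  cases τ
  · intro h
    simp only [dn, Bool.false_eq_true, if_false] at h
    simp only [cr, iot, sg, dn, lc, Bool.false_eq_true, if_false]
    field_simp
    ring
  · intro h
    simp [cr, iot, sg, dn, lc]

theorem dn_smul' (τ : Bool) (a : ℂ) (v : ℂ × ℂ) : dn τ (a • v) = a * dn τ v := by
  cases τ <;> simp [dn]

theorem pt_smul {τ : Bool} {c : ℂ} (h : dn τ (c, 1) ≠ 0) :
    ((c, 1) : ℂ × ℂ) = dn τ (c, 1) • iot τ (lc τ (c, 1)) := by
  revert h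
  cases τ
  · intro h
    simp only [dn, Bool.false_eq_true, if_false] at h
    refine Prod.ext ?_ ?_
    · simp [iot, dn, lc]
    · simp only [iot, dn, lc, Bool.false_eq_true, if_false, Prod.smul_snd, smul_eq_mul]
      field_simp
  · intro h
    refine Prod.ext ?_ ?_
    · simp [iot, dn, lc]
    · simp [iot, dn, lc]

/-- the numerator of the map in the charts -/
noncomputable def NN {d k : ℕ} (X : (Fin k → ℂ) → CV d) (τ τ' : Bool)
    (q : (Fin k → ℂ) × ℂ) : ℂ :=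
  if τ' then (hF (X q.1) (iot τ q.2)).1 else (hF (X q.1) (iot τ q.2)).2

theorem dif_N {d k : ℕ} {X : (Fin k → ℂ) → CV d} {ρ : ℝ}
    (hX : DifferentiableOn ℂ X (ball 0 ρ)) (τ τ' : Bool) :
    DifferentiableOn ℂ (NN X τ τ') (ball 0 ρ ×ˢ univ) := by
  cases τ'
  · have h2 : DifferentiableOn ℂ (fun q : (Fin k → ℂ) × ℂ => (hF (X q.1) (iot τ q.2)).2)
        (ball 0 ρ ×ˢ univ) := (dif_h hX τ).snd
    refine h2.congr fun q _ => ?_
    unfold NN
    exact if_neg Bool.false_ne_true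
  · have h2 : DifferentiableOn ℂ (fun q : (Fin k → ℂ) × ℂ => (hF (X q.1) (iot τ q.2)).1)
        (ball 0 ρ ×ˢ univ) := (dif_h hX τ).fst
    refine h2.congr fun q _ => ?_
    unfold NN
    exact if_pos rfl

theorem GG_eq {d k : ℕ} (X : (Fin k → ℂ) → CV d) (τ τ' : Bool) (q : (Fin k → ℂ) × ℂ) :
    GG (X q.1) τ τ' q.2 = NN X τ τ' q / EE X τ τ' q := by
  cases τ' <;> simp [GG, NN, EE, lc, dn]

/-- the denominator of the point `(c i s, 1)` -/
noncomputable def DC {k : ℕ} (c : Fin k → (Fin k → ℂ) → ℂ) (τ : Bool) (l : Fin k)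
    (q : (Fin k → ℂ) × ℂ) : ℂ := dn τ (c l q.1, 1)

/-- its numerator -/
noncomputable def NC {k : ℕ} (c : Fin k → (Fin k → ℂ) → ℂ) (τ : Bool) (l : Fin k)
    (q : (Fin k → ℂ) × ℂ) : ℂ := if τ then c l q.1 else 1

theorem dif_DC {k : ℕ} {c : Fin k → (Fin k → ℂ) → ℂ} {ρ : ℝ}
    (hc : ∀ i, DifferentiableOn ℂ (c i) (ball 0 ρ)) (τ : Bool) (l : Fin k) :
    DifferentiableOn ℂ (DC c τ l) (ball 0 ρ ×ˢ univ) := by
  have h1 : DifferentiableOn ℂ (fun q : (Fin k → ℂ) × ℂ => c l q.1) (ball 0 ρ ×ˢ univ) :=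
    (hc l).comp differentiableOn_fst fun _ hq => hq.1
  cases τ
  · refine h1.congr fun q _ => ?_
    simp [DC, dn]
  · refine (differentiableOn_const (1 : ℂ)).congr fun q _ => ?_
    simp [DC, dn]

theorem dif_NC {k : ℕ} {c : Fin k → (Fin k → ℂ) → ℂ} {ρ : ℝ}
    (hc : ∀ i, DifferentiableOn ℂ (c i) (ball 0 ρ)) (τ : Bool) (l : Fin k) :
    DifferentiableOn ℂ (NC c τ l) (ball 0 ρ ×ˢ univ) := by
  have h1 : DifferentiableOn ℂ (fun q : (Fin k → ℂ) × ℂ => c l q.1) (ball 0 ρ ×ˢ univ) :=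
    (hc l).comp differentiableOn_fst fun _ hq => hq.1
  cases τ
  · refine (differentiableOn_const (1 : ℂ)).congr fun q _ => ?_
    simp [NC]
  · refine h1.congr fun q _ => ?_
    simp [NC]

theorem lc_eq {k : ℕ} (c : Fin k → (Fin k → ℂ) → ℂ) (τ : Bool) (l : Fin k)
    (q : (Fin k → ℂ) × ℂ) : lc τ (c l q.1, 1) = NC c τ l q / DC c τ l q := by
  cases τ <;> simp [NC, DC, lc, dn]

/-- the derivative divided by the power of the distance to the critical point -/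
noncomputable def KK {d k : ℕ} (X : (Fin k → ℂ) → CV d) (c : Fin k → (Fin k → ℂ) → ℂ)
    (m : Fin k → ℕ) (τ τ' : Bool) (l : Fin k) (q : (Fin k → ℂ) × ℂ) : ℂ :=
  sg τ * sg τ' * (WW X q * (sg τ * DC c τ l q) ^ m l *
    ∏ i ∈ Finset.univ.erase l, FF c τ i q ^ m i) / ((d : ℂ) * EE X τ τ' q ^ 2)

theorem d_prod {E ι : Type} [NormedAddCommGroup E] [NormedSpace ℂ E] {V : Set E} (u : Finset ι)
    {f : ι → E → ℂ} (h : ∀ i, DifferentiableOn ℂ (f i) V) :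
    DifferentiableOn ℂ (fun q => ∏ i ∈ u, f i q) V := by
  classical
  induction u using Finset.induction_on with
  | empty => simp
  | insert a u ha ih =>
    have h1 : DifferentiableOn ℂ (fun q => f a q * ∏ i ∈ u, f i q) V := (h a).mul ih
    refine h1.congr fun q _ => ?_
    rw [Finset.prod_insert ha]

theorem d_div {E : Type} [NormedAddCommGroup E] [NormedSpace ℂ E] {V : Set E}
    {f g : E → ℂ} (hf : DifferentiableOn ℂ f V) (hg : DifferentiableOn ℂ g V)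
    (h0 : ∀ q ∈ V, g q ≠ 0) : DifferentiableOn ℂ (fun q => f q / g q) V := by
  have h1 : DifferentiableOn ℂ (fun q => f q * (g q)⁻¹) V := hf.mul (hg.inv h0)
  refine h1.congr fun q _ => ?_
  rw [div_eq_mul_inv]

theorem dif_K {d k : ℕ} {X : (Fin k → ℂ) → CV d} {c : Fin k → (Fin k → ℂ) → ℂ} {ρ : ℝ}
    (m : Fin k → ℕ) (hd : 2 ≤ d)
    (hX : DifferentiableOn ℂ X (ball 0 ρ)) (hc : ∀ i, DifferentiableOn ℂ (c i) (ball 0 ρ))
    (τ τ' : Bool) (l : Fin k) {V : Set ((Fin k → ℂ) × ℂ)} (hV : V ⊆ ball 0 ρ ×ˢ univ)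
    (hE : ∀ q ∈ V, EE X τ τ' q ≠ 0) :
    DifferentiableOn ℂ (KK X c m τ τ' l) V := by
  have hd0 : (d : ℂ) ≠ 0 := by
    have : d ≠ 0 := by omega
    exact_mod_cast this
  have h1 := (dif_W hX).mono hV
  have h2 := (dif_DC hc τ l).mono hV
  have h3 : ∀ i, DifferentiableOn ℂ (FF c τ i) V := fun i => (dif_F hc τ i).mono hV
  have h4 := (dif_E hX τ τ').mono hV
  have h5 : DifferentiableOn ℂ (fun q => ∏ i ∈ Finset.univ.erase l, FF c τ i q ^ m i) V :=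
    d_prod _ fun i => (h3 i).pow (m i)
  have h6 : DifferentiableOn ℂ (fun q => (sg τ * DC c τ l q) ^ m l) V :=
    ((differentiableOn_const (sg τ)).mul h2).pow (m l)
  unfold KK
  refine d_div ?_ ?_ ?_
  · exact (differentiableOn_const _).mul ((h1.mul h6).mul h5)
  · exact (differentiableOn_const _).mul (h4.pow 2)
  · intro q hq
    exact mul_ne_zero hd0 (pow_ne_zero 2 (hE q hq))

theorem one (h : S_DER) {d k : ℕ} {x₀ : CV d} {c₀ : Fin k → ℂ} {m : Fin k → ℕ}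
    {X : (Fin k → ℂ) → CV d} {c : Fin k → (Fin k → ℂ) → ℂ} {ρ : ℝ} (hd : 2 ≤ d) (hnd : ND x₀)
    (hw0 : wr x₀ (1, 0) ≠ 0) (hfac : Fac x₀ k c₀ m) (hfam : Fami x₀ k c₀ m X c ρ)
    (l : Fin k) (τ : Bool) (hdn : dn τ (c₀ l, 1) ≠ 0) :
    ∃ η > (0 : ℝ), ∃ B ≥ (1 : ℝ),
      ∀ (z : ℂ) (w : (Fin k → ℂ) → ℂ) (y r K : ℝ), 0 < y → y ≤ η →
        y ^ (m l + 1) = ‖w 0 - cv x₀ X (c₀ l) (c l) 0‖ → 0 < r → 1 ≤ K →
        B * K * r ≤ y ^ (m l + 1) →
        (∀ s ∈ ball (0 : Fin k → ℂ) r, ∀ s' ∈ ball (0 : Fin k → ℂ) r,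
          ‖w s - w s'‖ ≤ K * ‖s - s'‖) →
        ∃ q : (Fin k → ℂ) → ℂ,
          ‖q 0 - lc τ (c₀ l, 1)‖ ≤ B * y ∧ y ≤ B * ‖q 0 - z‖ ∧
          (∀ s ∈ ball (0 : Fin k → ℂ) r, ∀ s' ∈ ball (0 : Fin k → ℂ) r,
            y ^ m l * ‖q s - q s'‖ ≤ B * K * ‖s - s'‖) ∧
          ∀ s ∈ ball (0 : Fin k → ℂ) r, wr (X s) (iot τ (q s)) ≠ 0 ∧
            cr (hF (X s) (iot τ (q s))) (iot (tau (qo x₀ (c₀ l) 1)) (w s)) = 0 := by
  have hX0 : X 0 = x₀ := hfam.at0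
  have hd0 : (d : ℂ) ≠ 0 := by
    have : d ≠ 0 := by omega
    exact_mod_cast this
  set τ' := tau (qo x₀ (c₀ l) 1) with hτ'
  set a0 : ℂ := lc τ (c₀ l, 1) with ha0
  set P0 : (Fin k → ℂ) × ℂ := (0, a0) with hP0
  set U : Set ((Fin k → ℂ) × ℂ) := ball 0 ρ ×ˢ univ with hU
  have hUo : IsOpen U := isOpen_ball.prod isOpen_univ
  have hP0U : P0 ∈ U := ⟨mem_ball_self hfam.ρ0, mem_univ _⟩
  have hqo : qo x₀ (c₀ l) 1 = hF x₀ (c₀ l, 1) := rfl
  have hpt := pt_smul hdn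
  have hv : hF x₀ (c₀ l, 1) = dn τ (c₀ l, 1) ^ d • hF x₀ (iot τ a0) := by
    conv_lhs => rw [hpt]
    rw [hF_smul]
  have hE0 : EE X τ τ' P0 ≠ 0 := by
    have h1 : hF x₀ (c₀ l, 1) ≠ 0 := fun h2 => pt_ne _ (hnd _ h2)
    have h2 : dn τ' (hF x₀ (c₀ l, 1)) ≠ 0 := by
      rw [hτ', hqo]
      exact Pool.Agent.H295.HY211.dn_ne h1
    intro h3
    apply h2
    have h4 : dn τ' (hF x₀ (iot τ a0)) = 0 := by
      have h5 : EE X τ τ' P0 = dn τ' (hF (X 0) (iot τ a0)) := rfl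
      rw [h5, hX0] at h3
      exact h3
    rw [hv, dn_smul', h4, mul_zero]
  have hD0 : DC c τ l P0 ≠ 0 := by
    have h1 : DC c τ l P0 = dn τ (c l 0, 1) := rfl
    rw [h1, hfam.c0 l]
    exact hdn
  -- the neighbourhood
  have hV : ∃ R > (0 : ℝ), ∀ q ∈ closedBall P0 R, q ∈ U ∧ EE X τ τ' q ≠ 0 ∧ DC c τ l q ≠ 0 := by
    have h1 : ∀ᶠ q in 𝓝 P0, q ∈ U := hUo.mem_nhds hP0U
    have h2 : ContinuousAt (EE X τ τ') P0 :=
      ((dif_E hfam.dif τ τ').differentiableAt (hUo.mem_nhds hP0U)).continuousAt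
    have h3 : ContinuousAt (DC c τ l) P0 :=
      ((dif_DC hfam.cdf τ l).differentiableAt (hUo.mem_nhds hP0U)).continuousAt
    have h4 := h1.and ((h2.eventually_ne hE0).and (h3.eventually_ne hD0))
    obtain ⟨R, hR, h5⟩ := Metric.nhds_basis_closedBall.eventually_iff.1 h4
    exact ⟨R, hR, fun q hq => h5 hq⟩
  obtain ⟨R, hR, hV⟩ := hV
  set V : Set ((Fin k → ℂ) × ℂ) := U ∩ {q | EE X τ τ' q ≠ 0 ∧ DC c τ l q ≠ 0} with hVdef
  have hVU : V ⊆ ball 0 ρ ×ˢ univ := fun q hq => hq.1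
  have hVo : IsOpen V := by
    have h1 : IsOpen (U ∩ EE X τ τ' ⁻¹' {0}ᶜ) :=
      (dif_E hfam.dif τ τ').continuousOn.isOpen_inter_preimage hUo isOpen_compl_singleton
    have h2 : IsOpen (U ∩ DC c τ l ⁻¹' {0}ᶜ) :=
      (dif_DC hfam.cdf τ l).continuousOn.isOpen_inter_preimage hUo isOpen_compl_singleton
    have h3 : V = (U ∩ EE X τ τ' ⁻¹' {0}ᶜ) ∩ (U ∩ DC c τ l ⁻¹' {0}ᶜ) := by
      ext q
      constructor
      · rintro ⟨h4, h5, h6⟩
        exact ⟨⟨h4, h5⟩, ⟨h4, h6⟩⟩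
      · rintro ⟨⟨h4, h5⟩, ⟨-, h6⟩⟩
        exact ⟨h4, h5, h6⟩
    rw [h3]
    exact h1.inter h2
  have hKc : IsCompact (closedBall P0 R) := isCompact_closedBall _ _
  have hKv : Convex ℝ (closedBall P0 R) := convex_closedBall _ _
  have hKV : closedBall P0 R ⊆ V := fun q hq => hV q hq
  have hdE : DifferentiableOn ℂ (EE X τ τ') V := (dif_E hfam.dif τ τ').mono hVU
  have hdN : DifferentiableOn ℂ (NN X τ τ') V := (dif_N hfam.dif τ τ').mono hVU
  have hdD : DifferentiableOn ℂ (DC c τ l) V := (dif_DC hfam.cdf τ l).mono hVU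
  have hdC : DifferentiableOn ℂ (NC c τ l) V := (dif_NC hfam.cdf τ l).mono hVU
  obtain ⟨L1, hL1, hlip1⟩ := lip hVo (d_div hdN hdE fun q hq => hq.2.1) hKc hKv hKV
  obtain ⟨L2, hL2, hlip2⟩ := lip hVo (d_div hdC hdD fun q hq => hq.2.2) hKc hKv hKV
  obtain ⟨L3, hL3, hlip3⟩ := lip hVo
    (dif_K m hd hfam.dif hfam.cdf τ τ' l hVU fun q hq => hq.2.1) hKc hKv hKV
  set M : ℝ := 1 + L1 + L2 + L3 with hM
  have hM1 : 1 ≤ M := by linarith
  have hmem : ∀ (s : Fin k → ℂ) (ζ : ℂ), ‖s‖ ≤ R → ‖ζ - a0‖ ≤ R → (s, ζ) ∈ closedBall P0 R := by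
    intro s ζ hs hζ
    rw [mem_closedBall, dist_eq_norm, Prod.norm_def]
    refine max_le ?_ hζ
    change ‖s - 0‖ ≤ R
    rw [sub_zero]
    exact hs
  have ha00 : lc τ (c l 0, 1) = a0 := by rw [hfam.c0 l]
  obtain ⟨η, hη, B, hB, hmain⟩ := loc (m l) (hfac.pos l) (fun s ζ => GG (X s) τ τ' ζ)
    (fun s ζ => KK X c m τ τ' l (s, ζ)) (fun s => lc τ (c l s, 1)) R M hR hM1
    (by
      intro s hs ζ hζ
      simp only [ha00] at hζ
      have h1 := hV _ (hmem s ζ hs.le hζ.le)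
      have h2 := (h d k τ τ' ζ hd).1 (X s) h1.2.1
      have h3 : s ∈ ball (0 : Fin k → ℂ) ρ := h1.1.1
      rw [wr_iot (X s) hd (fun i => c i s) m hfac.deg (hfam.fac s h3) τ ζ,
        ← Finset.mul_prod_erase _ _ (Finset.mem_univ l), cr_iot_pt h1.2.2] at h2
      convert h2 using 1
      unfold KK WW FF DC EE
      simp only
      rw [mul_pow (sg τ * dn τ (c l s, 1))]
      ring)
    (by
      intro s hs ζ hζ
      simp only [ha00] at hζ ⊢
      refine (hlip3 _ (hmem s ζ hs.le hζ.le) P0 (mem_closedBall_self hR.le)).trans ?_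
      have h1 : ‖((s, ζ) : (Fin k → ℂ) × ℂ) - P0‖ ≤ ‖s‖ + ‖ζ - a0‖ := by
        rw [Prod.norm_def]
        refine max_le ?_ ?_
        · change ‖s - 0‖ ≤ _
          rw [sub_zero]
          linarith [norm_nonneg (ζ - a0)]
        · change ‖ζ - a0‖ ≤ _
          linarith [norm_nonneg s]
      calc L3 * ‖((s, ζ) : (Fin k → ℂ) × ℂ) - P0‖ ≤ L3 * (‖s‖ + ‖ζ - a0‖) :=
            mul_le_mul_of_nonneg_left h1 hL3
        _ ≤ M * (‖s‖ + ‖ζ - a0‖) := mul_le_mul_of_nonneg_right (by linarith) (by positivity))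
    (by
      intro s hs
      have h1 := hlip2 _ (hmem s a0 hs.le (by rw [sub_self, norm_zero]; exact hR.le)) P0
        (mem_closedBall_self hR.le)
      have h2 : ‖((s, a0) : (Fin k → ℂ) × ℂ) - P0‖ = ‖s‖ := by
        rw [Prod.norm_def]
        change max ‖s - 0‖ ‖a0 - a0‖ = _
        rw [sub_zero, sub_self, norm_zero]
        exact max_eq_left (norm_nonneg _)
      rw [h2, ← lc_eq, ← lc_eq] at h1
      refine h1.trans (mul_le_mul_of_nonneg_right (by linarith) (norm_nonneg _)))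
    (by
      intro s hs s' hs' ζ hζ
      simp only [ha00] at hζ
      have h1 := hlip1 _ (hmem s ζ hs.le hζ.le) _ (hmem s' ζ hs'.le hζ.le)
      have h2 : ‖((s, ζ) : (Fin k → ℂ) × ℂ) - (s', ζ)‖ = ‖s - s'‖ := by
        rw [Prod.norm_def]
        change max ‖s - s'‖ ‖ζ - ζ‖ = _
        rw [sub_self, norm_zero]
        exact max_eq_left (norm_nonneg _)
      rw [h2, ← GG_eq, ← GG_eq] at h1
      refine h1.trans (mul_le_mul_of_nonneg_right (by linarith) (norm_nonneg _)))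
    (by
      simp only [ha00]
      have h1 : WW X P0 ≠ 0 := by
        unfold WW
        change wr (X 0) (1, 0) ≠ 0
        rw [hX0]
        exact hw0
      have h2 : ∀ i ∈ Finset.univ.erase l, FF c τ i P0 ^ m i ≠ 0 := by
        intro i hi
        refine pow_ne_zero _ ?_
        have h3 : FF c τ i P0 = cr (iot τ a0) (c₀ i, 1) := by
          unfold FF
          change cr (iot τ a0) (c i 0, 1) = _
          rw [hfam.c0 i]
        rw [h3]
        intro h4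
        have h5 : cr ((c₀ l, 1) : ℂ × ℂ) (c₀ i, 1) = 0 := by
          rw [hpt, cr_smul_left, h4, mul_zero]
        have h6 : c₀ l = c₀ i := by
          simp only [cr, mul_one, one_mul] at h5
          exact sub_eq_zero.1 h5
        exact (Finset.ne_of_mem_erase hi) (hfac.inj h6).symm
      exact div_ne_zero (mul_ne_zero (mul_ne_zero (sg_ne _) (sg_ne _))
        (mul_ne_zero (mul_ne_zero h1 (pow_ne_zero _ (mul_ne_zero (sg_ne _) hD0)))
          (Finset.prod_ne_zero_iff.2 h2))) (mul_ne_zero hd0 (pow_ne_zero _ hE0)))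
  have hcv : GG (X 0) τ τ' (lc τ (c l 0, 1)) = cv x₀ X (c₀ l) (c l) 0 := by
    unfold GG cv
    rw [← hτ', ha00, hfam.c0 l, hX0, hv, lc_smul _ (pow_ne_zero _ hdn)]
  refine ⟨η, hη, B, hB, ?_⟩
  intro z w y r K hy hyη hyw hr hK hBK hw
  obtain ⟨q, hq1, hq2, hq3, hq4⟩ := hmain z w y r K hy hyη (by rw [hyw, hcv]) hr hK hBK hw
  rw [ha00] at hq1
  refine ⟨q, hq1, hq2, hq3, fun s hs => ?_⟩
  obtain ⟨h1, h2, h3, h4⟩ := hq4 s hs
  rw [ha00] at h2
  have h5 := hV _ (hmem s (q s) h1.le h2.le)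
  have h6 : s ∈ ball (0 : Fin k → ℂ) ρ := h5.1.1
  constructor
  · intro h7
    rw [wr_iot (X s) hd (fun i => c i s) m hfac.deg (hfam.fac s h6) τ (q s),
        ← Finset.mul_prod_erase _ _ (Finset.mem_univ l), cr_iot_pt h5.2.2] at h7
    apply h4
    unfold KK WW FF DC EE
    simp only
    rw [mul_pow (sg τ * dn τ (c l s, 1))] at h7
    have h8 : (q s - lc τ (c l s, 1)) ^ m l * (sg τ * sg τ' * (wr (X s) (1, 0) *
        (sg τ * dn τ (c l s, 1)) ^ m l *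
        ∏ i ∈ Finset.univ.erase l, cr (iot τ (q s)) (c i s, 1) ^ m i) /
        ((d : ℂ) * dn τ' (hF (X s) (iot τ (q s))) ^ 2)) =
        sg τ * sg τ' * (wr (X s) (1, 0) * ((sg τ * dn τ (c l s, 1)) ^ m l *
          (q s - lc τ (c l s, 1)) ^ m l *
          ∏ i ∈ Finset.univ.erase l, cr (iot τ (q s)) (c i s, 1) ^ m i)) /
        ((d : ℂ) * dn τ' (hF (X s) (iot τ (q s))) ^ 2) := by ring
    rw [h8, h7, mul_zero, zero_div]
  · have h7 : lc τ' (hF (X s) (iot τ (q s))) = w s := h3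
    rw [← h7]
    exact lc_cr h5.2.1

/-- the assertion for one critical point and one chart, with the constant `L` for everything -/
def Ass {d k : ℕ} (x₀ : CV d) (c₀ : Fin k → ℂ) (m : Fin k → ℕ)
    (X : (Fin k → ℂ) → CV d) (c : Fin k → (Fin k → ℂ) → ℂ) (j : Fin k × Bool) (L : ℝ) : Prop :=
  dn j.2 (c₀ j.1, 1) ≠ 0 → 1 ≤ L ∧
      ∀ (z : ℂ) (w : (Fin k → ℂ) → ℂ) (y r K : ℝ), 0 < y → y ≤ 1 / L →
        y ^ (m j.1 + 1) = ‖w 0 - cv x₀ X (c₀ j.1) (c j.1) 0‖ → 0 < r → 1 ≤ K →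
        L * K * r ≤ y ^ (m j.1 + 1) →
        (∀ s ∈ ball (0 : Fin k → ℂ) r, ∀ s' ∈ ball (0 : Fin k → ℂ) r,
          ‖w s - w s'‖ ≤ K * ‖s - s'‖) →
        ∃ q : (Fin k → ℂ) → ℂ,
          ‖q 0 - lc j.2 (c₀ j.1, 1)‖ ≤ L * y ∧ y ≤ L * ‖q 0 - z‖ ∧
          (∀ s ∈ ball (0 : Fin k → ℂ) r, ∀ s' ∈ ball (0 : Fin k → ℂ) r,
            y ^ m j.1 * ‖q s - q s'‖ ≤ L * K * ‖s - s'‖) ∧
          ∀ s ∈ ball (0 : Fin k → ℂ) r, wr (X s) (iot j.2 (q s)) ≠ 0 ∧
            cr (hF (X s) (iot j.2 (q s))) (iot (tau (qo x₀ (c₀ j.1) 1)) (w s)) = 0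

theorem ass_mono {d k : ℕ} {x₀ : CV d} {c₀ : Fin k → ℂ} {m : Fin k → ℕ}
    {X : (Fin k → ℂ) → CV d} {c : Fin k → (Fin k → ℂ) → ℂ} (j : Fin k × Bool) (a b : ℝ)
    (hab : a ≤ b) (h : Ass x₀ c₀ m X c j a) : Ass x₀ c₀ m X c j b := by
  intro hdn
  obtain ⟨ha1, h⟩ := h hdn
  have hb1 : 1 ≤ b := ha1.trans hab
  refine ⟨hb1, ?_⟩
  intro z w y r K hy hyb hyw hr hK hBK hw
  have hKr : 0 < K * r := mul_pos (by linarith) hr
  have h1 : y ≤ 1 / a := hyb.trans (one_div_le_one_div_of_le (by linarith) hab)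
  have h2 : a * K * r ≤ y ^ (m j.1 + 1) := by
    refine le_trans ?_ hBK
    rw [mul_assoc, mul_assoc]
    exact mul_le_mul_of_nonneg_right hab hKr.le
  obtain ⟨q, hq1, hq2, hq3, hq4⟩ := h z w y r K hy h1 hyw hr hK h2 hw
  refine ⟨q, ?_, ?_, ?_, hq4⟩
  · exact hq1.trans (mul_le_mul_of_nonneg_right hab hy.le)
  · exact hq2.trans (mul_le_mul_of_nonneg_right hab (norm_nonneg _))
  · intro s hs s' hs'
    refine (hq3 s hs s' hs').trans ?_
    rw [mul_assoc, mul_assoc]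
    exact mul_le_mul_of_nonneg_right hab (mul_nonneg (by linarith) (norm_nonneg _))

theorem t_ROOT (h : S_DER) : Pool.Agent.H207.BT.S_ROOT := by
  intro d k x₀ c₀ m X c ρ hd hnd hw0 hfac hfam
  have hA : ∀ j : Fin k × Bool, ∃ L, Ass x₀ c₀ m X c j L := by
    intro j
    by_cases hj : dn j.2 (c₀ j.1, 1) = 0
    · exact ⟨1, fun h2 => absurd hj h2⟩
    obtain ⟨η, hη, B, hB, hmain⟩ := one h hd hnd hw0 hfac hfam j.1 j.2 hj
    have hL1 : 0 < 1 / η := by positivity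
    have hL : 0 < B + 1 / η := by linarith
    refine ⟨B + 1 / η, fun _ => ⟨by linarith, ?_⟩⟩
    intro z w y r K hy hyb hyw hr hK hBK hw
    have hKr : 0 < K * r := mul_pos (by linarith) hr
    have hab : B ≤ B + 1 / η := by linarith
    have h1 : y ≤ η := by
      refine hyb.trans ?_
      rw [div_le_iff₀ hL]
      have h2 : η * (1 / η) = 1 := by field_simp
      nlinarith
    have h2 : B * K * r ≤ y ^ (m j.1 + 1) := by
      refine le_trans ?_ hBK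
      rw [mul_assoc, mul_assoc]
      exact mul_le_mul_of_nonneg_right hab hKr.le
    obtain ⟨q, hq1, hq2, hq3, hq4⟩ := hmain z w y r K hy h1 hyw hr hK h2 hw
    refine ⟨q, ?_, ?_, ?_, hq4⟩
    · exact hq1.trans (mul_le_mul_of_nonneg_right hab hy.le)
    · exact hq2.trans (mul_le_mul_of_nonneg_right hab (norm_nonneg _))
    · intro s hs s' hs'
      refine (hq3 s hs s' hs').trans ?_
      rw [mul_assoc, mul_assoc]
      exact mul_le_mul_of_nonneg_right hab (mul_nonneg (by linarith) (norm_nonneg _))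
  obtain ⟨L, hL0, hL⟩ := unif (fun j a b hab hj => ass_mono j a b hab hj) hA
  obtain ⟨D, hD0, hD⟩ := unif (ι := Fin k × Bool)
    (P := fun j a => Real.sqrt (2 * N2 (c₀ j.1, 1)) / ‖dn j.2 (c₀ j.1, 1)‖ ≤ a)
    (fun j a b hab hj => hj.trans hab) (fun j => ⟨_, le_rfl⟩)
  have hL' : ∀ j, Ass x₀ c₀ m X c j (L + 1) := fun j => ass_mono j L (L + 1) (by linarith) (hL j)
  have hL1 : 0 < L + 1 := by linarith
  refine ⟨min (1 / (L + 1)) (min (1 / 2) ρ), lt_min (by positivity) (lt_min (by norm_num) hfam.ρ0),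
    (min_le_right _ _).trans (min_le_right _ _), L + 1 + D, by linarith, ?_⟩
  intro p l w y r K hp hcho hy hyη hyw hr hK hBK hw
  have hη1 : y ≤ 1 / (L + 1) := hyη.trans (min_le_left _ _)
  have hcho2 : cho p (c₀ l, 1) ≤ 1 / 2 := hcho.trans ((min_le_right _ _).trans (min_le_left _ _))
  have hcho0 : 0 ≤ cho p (c₀ l, 1) := cho_nonneg _ _
  have hKr : 0 < K * r := mul_pos (by linarith) hr
  have hz1 : ‖zc p‖ ≤ 1 := zc_le
  have hcr := cr_eq_cho hp (pt_ne (c₀ l))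
  have hN2c : 1 ≤ N2 (c₀ l, 1) := by
    unfold N2
    simp only [norm_one, one_pow]
    nlinarith [sq_nonneg ‖c₀ l‖]
  have hdn : dn (tau p) (c₀ l, 1) ≠ 0 := by
    intro h1
    have h2 : tau p = false ∧ c₀ l = 0 := by
      revert h1
      cases tau p
      · intro h1
        simp only [dn, Bool.false_eq_true, if_false] at h1
        exact ⟨rfl, h1⟩
      · intro h1
        simp [dn] at h1
    rw [h2.1, h2.2] at hcr
    rw [h2.2] at hcho2 hcho0
    have h3 : ‖cr (iot false (zc p)) (0, 1)‖ = 1 := by simp [cr, iot]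
    have h4 : Real.sqrt ((1 + ‖zc p‖ ^ 2) * N2 (0, 1)) ≤ 3 / 2 := by
      rw [Real.sqrt_le_left (by norm_num)]
      have h5 : N2 (0, 1) = 1 := by simp [N2]
      rw [h5]
      nlinarith [norm_nonneg (zc p)]
    rw [h3] at hcr
    nlinarith
  have hdn0 : 0 < ‖dn (tau p) (c₀ l, 1)‖ := norm_pos_iff.2 hdn
  have hz : ‖zc p - lc (tau p) (c₀ l, 1)‖ ≤ D * cho p (c₀ l, 1) := by
    rw [cr_iot_pt hdn, norm_mul, norm_mul, sg_norm, one_mul] at hcr
    have h1 : ‖zc p - lc (tau p) (c₀ l, 1)‖ = cho p (c₀ l, 1) *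
        Real.sqrt ((1 + ‖zc p‖ ^ 2) * N2 (c₀ l, 1)) / ‖dn (tau p) (c₀ l, 1)‖ := by
      rw [← hcr]
      field_simp
    have h2 : Real.sqrt ((1 + ‖zc p‖ ^ 2) * N2 (c₀ l, 1)) ≤ Real.sqrt (2 * N2 (c₀ l, 1)) := by
      refine Real.sqrt_le_sqrt (mul_le_mul_of_nonneg_right ?_ (by linarith))
      nlinarith [norm_nonneg (zc p)]
    have h3 := hD (l, tau p)
    simp only at h3
    rw [h1, mul_div_assoc, mul_comm]
    refine mul_le_mul_of_nonneg_right (le_trans ?_ h3) hcho0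
    exact div_le_div_of_nonneg_right h2 hdn0.le
  have h2 : (L + 1) * K * r ≤ y ^ (m l + 1) := by
    refine le_trans ?_ hBK
    rw [mul_assoc, mul_assoc]
    exact mul_le_mul_of_nonneg_right (by linarith) hKr.le
  obtain ⟨q, hq1, hq2, hq3, hq4⟩ := (hL' (l, tau p) hdn).2 (zc p) w y r K hy hη1 hyw hr hK h2 hw
  simp only at hq1 hq2 hq3 hq4
  refine ⟨q, ?_, ?_, ?_, hq4⟩
  · have e1 : q 0 - zc p = (q 0 - lc (tau p) (c₀ l, 1)) - (zc p - lc (tau p) (c₀ l, 1)) := by ring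
    rw [e1]
    refine (norm_sub_le _ _).trans ?_
    nlinarith
  · refine hq2.trans (mul_le_mul_of_nonneg_right (by linarith) (norm_nonneg _))
  · intro s hs s' hs'
    refine (hq3 s hs s' hs').trans ?_
    rw [mul_assoc, mul_assoc]
    exact mul_le_mul_of_nonneg_right (by linarith) (mul_nonneg (by linarith) (norm_nonneg _))

end

end Pool.Agent.H733.BT207
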